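import Pool.Agent.Lib_helper62.OrthTower

/-!
# The delta conjecture: `δ(G) ≤ M₊(G) ≤ M(G)` and `mr(G) ≤ |G| - δ(G)` for every finite graph

The three numbers are not defined by a supremum with a default value: the theorem produces them
as a greatest, a greatest and a least element.
-/

namespace Pool.Agent.Results.MP_456239_co.MinimumDegree

open Matrix Pool.Agent.Lib_helper62

variable {V : Type*} [Fintype V] [DecidableEq V]

/-- `S(G)`: the real symmetric matrices whose off-diagonal entry `(i, j)` is nonzero exactly if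
`ij` is an edge of `G`; the diagonal is unrestricted. -/
def symMatrices (G : SimpleGraph V) : Set (Matrix V V ℝ) :=
  {A | Aᵀ = A ∧ ∀ i j : V, i ≠ j → (A i j ≠ 0 ↔ G.Adj i j)}

/-- The nullity of a real square matrix: the dimension of its kernel. -/
noncomputable def nullity (A : Matrix V V ℝ) : ℕ :=
  Module.finrank ℝ (LinearMap.ker A.mulVecLin)

theorem nullity_add_rank (A : Matrix V V ℝ) : nullity A + A.rank = Fintype.card V := by
  have h := A.mulVecLin.finrank_range_add_finrank_ker
  rw [Module.finrank_fintype_fun_eq_card] at h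
  unfold nullity Matrix.rank
  omega

/-- The Gram matrix given by the main theorem of the library. -/
theorem exists_psd (G : SimpleGraph V) [DecidableRel G.Adj] :
    ∃ A ∈ symMatrices G, A.PosSemidef ∧ G.minDegree ≤ nullity A := by
  rcases isEmpty_or_nonempty V with hV | hV
  · refine ⟨0, ⟨by simp, fun i => (IsEmpty.false i).elim⟩, Matrix.PosSemidef.zero, ?_⟩
    have h : G.minDegree = 0 := by simp [SimpleGraph.minDegree]
    rw [h]
    exact Nat.zero_le _
  · have hδ : G.minDegree < Fintype.card V := G.minDegree_lt_card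
    obtain ⟨y, hy, -⟩ := main (F := ℝ) G (d := Fintype.card V - G.minDegree) (by omega)
    let U : Matrix V (Fin (Fintype.card V - G.minDegree)) ℝ := Matrix.of y
    have hA : ∀ i j, (U * Uᴴ) i j = y i ⬝ᵥ y j := by
      intro i j
      simp [U, Matrix.mul_apply, dotProduct]
    have hpsd : (U * Uᴴ).PosSemidef := Matrix.posSemidef_self_mul_conjTranspose U
    refine ⟨U * Uᴴ, ⟨?_, fun i j hij => ?_⟩, hpsd, ?_⟩
    · ext i j
      rw [Matrix.transpose_apply, hA, hA, dotProduct_comm]
    · rw [hA]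
      exact hy i j hij
    · have h1 : (U * Uᴴ).rank ≤ Fintype.card V - G.minDegree :=
        (Matrix.rank_mul_le_left U Uᴴ).trans
          (by simpa using Matrix.rank_le_card_width U)
      have h2 := nullity_add_rank (U * Uᴴ)
      omega

theorem exists_greatest {S : Set ℕ} (hS : S.Nonempty) {b : ℕ} (hb : ∀ k ∈ S, k ≤ b) :
    ∃ m, IsGreatest S m := by
  have hB : BddAbove S := ⟨b, fun k hk => hb k hk⟩
  exact ⟨sSup S, Nat.sSup_mem hS hB, fun k hk => le_csSup hB hk⟩

/-- **The delta conjecture.** For every finite simple graph `G` the maximum nullity `M(G)`, the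
maximum nullity `M₊(G)` over the positive semidefinite matrices of `S(G)` and the minimum rank
`mr(G)` exist and satisfy `δ(G) ≤ M₊(G) ≤ M(G)`, `mr(G) + δ(G) ≤ |G|` and `M(G) + mr(G) = |G|`. -/
theorem result {V : Type*} [Fintype V] [DecidableEq V] (G : SimpleGraph V)
    [DecidableRel G.Adj] :
    ∃ M Mp mr : ℕ,
      IsGreatest {k | ∃ A ∈ symMatrices G, nullity A = k} M ∧
      IsGreatest {k | ∃ A ∈ symMatrices G, A.PosSemidef ∧ nullity A = k} Mp ∧
      IsLeast {k | ∃ A ∈ symMatrices G, A.rank = k} mr ∧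
      G.minDegree ≤ Mp ∧ Mp ≤ M ∧ mr + G.minDegree ≤ Fintype.card V ∧
      M + mr = Fintype.card V := by
  classical
  obtain ⟨A0, hA0, hp0, h0⟩ := exists_psd G
  have hle : ∀ A : Matrix V V ℝ, nullity A ≤ Fintype.card V := fun A => by
    have := nullity_add_rank A
    omega
  obtain ⟨M, hM⟩ := exists_greatest (S := {k | ∃ A ∈ symMatrices G, nullity A = k})
    ⟨nullity A0, A0, hA0, rfl⟩ (b := Fintype.card V) (by
      rintro k ⟨A, -, rfl⟩
      exact hle A)
  obtain ⟨Mp, hMp⟩ :=
    exists_greatest (S := {k | ∃ A ∈ symMatrices G, A.PosSemidef ∧ nullity A = k})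
    ⟨nullity A0, A0, hA0, hp0, rfl⟩ (b := Fintype.card V) (by
      rintro k ⟨A, -, -, rfl⟩
      exact hle A)
  obtain ⟨A1, hA1, h1⟩ := hM.1
  have hr := nullity_add_rank A1
  have hmr : IsLeast {k | ∃ A ∈ symMatrices G, A.rank = k} A1.rank := by
    refine ⟨⟨A1, hA1, rfl⟩, ?_⟩
    rintro k ⟨A, hA, rfl⟩
    have h2 := hM.2 ⟨A, hA, rfl⟩
    have h3 := nullity_add_rank A
    omega
  have h4 : nullity A0 ≤ Mp := hMp.2 ⟨A0, hA0, hp0, rfl⟩
  obtain ⟨A2, hA2, hp2, h5⟩ := hMp.1
  have h6 : Mp ≤ M := hM.2 ⟨A2, hA2, h5⟩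
  exact ⟨M, Mp, A1.rank, hM, hMp, hmr, h0.trans h4, h6, by omega, by omega⟩

end Pool.Agent.Results.MP_456239_co.MinimumDegree
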